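import Pool.Agent.Helper66_D1.Stmts

/-! Squad PP, part D1, module KEY. -/

namespace Pool.Agent.PP.D1.H2

open Pool.Agent.Helper51_AWC Pool.Agent.Helper79_WRA Pool.Agent.PP

variable {F : Type} [Field F] {G : Type} [Group G] {V : Type} [AddCommGroup V] [Module F V]

theorem rho_mul (ρ : Representation F G V) (g h : G) (v : V) : ρ (g * h) v = ρ g (ρ h v) := by
  rw [map_mul]
  rfl

theorem rho_inv_self (ρ : Representation F G V) (g : G) (v : V) : ρ g⁻¹ (ρ g v) = v := by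
  rw [← rho_mul, inv_mul_cancel, map_one]
  rfl

theorem rho_self_inv (ρ : Representation F G V) (g : G) (v : V) : ρ g (ρ g⁻¹ v) = v := by
  rw [← rho_mul, mul_inv_cancel, map_one]
  rfl

/-- (i) sums -/
theorem zs_sup {ρ : Representation F G V} {N P : Subgroup G} (hPN : P ≤ N)
    (hcp : ∀ W : Submodule F V, Stb N ρ W → ∃ C : Submodule F V, Stb N ρ C ∧ IsCompl W C)
    {Y Z₁ Z₂ : Submodule F V} (h1 : Stb N ρ Z₁) (h2 : Stb N ρ Z₂) (hY1 : Z₁ ⊓ fixV ρ P ≤ Y)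
    (hY2 : Z₂ ⊓ fixV ρ P ≤ Y) : Stb N ρ (Z₁ ⊔ Z₂) ∧ (Z₁ ⊔ Z₂) ⊓ fixV ρ P ≤ Y := by
  constructor
  · intro n hn v hv
    obtain ⟨a, ha, b, hb, rfl⟩ := Submodule.mem_sup.1 hv
    rw [map_add]
    exact Submodule.add_mem_sup (h1 n hn a ha) (h2 n hn b hb)
  · have h12 : Stb N ρ (Z₁ ⊓ Z₂) := fun n hn v hv => ⟨h1 n hn v hv.1, h2 n hn v hv.2⟩
    obtain ⟨C, hC, hcpl⟩ := hcp _ h12
    rintro v ⟨hv, hvf⟩
    obtain ⟨a, ha, b, hb, rfl⟩ := Submodule.mem_sup.1 hv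
    have hbT : b ∈ (Z₁ ⊓ Z₂) ⊔ C := by
      rw [hcpl.sup_eq_top]
      exact Submodule.mem_top
    obtain ⟨w, hw, c, hc, hwc⟩ := Submodule.mem_sup.1 hbT
    have hcZ : c ∈ Z₂ := by
      have : c = b - w := by rw [← hwc]; abel
      rw [this]
      exact sub_mem hb hw.2
    set a' : V := a + w with ha'
    have haZ : a' ∈ Z₁ := add_mem ha hw.1
    have hsum : a + b = a' + c := by rw [ha', ← hwc]; abel
    have hfix : ∀ p ∈ P, ρ p a' = a' ∧ ρ p c = c := by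
      intro p hp
      have e1 : ρ p (a' + c) = a' + c := by
        rw [← hsum]
        exact hvf p hp
      rw [map_add] at e1
      have e2 : ρ p a' - a' = c - ρ p c := by
        rw [sub_eq_sub_iff_add_eq_add, e1, add_comm]
      have m1 : ρ p a' - a' ∈ Z₁ := sub_mem (h1 p (hPN hp) a' haZ) haZ
      have m2 : c - ρ p c ∈ Z₂ := sub_mem hcZ (h2 p (hPN hp) c hcZ)
      have m3 : c - ρ p c ∈ C := sub_mem hc (hC p (hPN hp) c hc)
      have m4 : c - ρ p c ∈ (Z₁ ⊓ Z₂) ⊓ C := ⟨⟨e2 ▸ m1, m2⟩, m3⟩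
      rw [hcpl.inf_eq_bot, Submodule.mem_bot] at m4
      constructor
      · rw [m4] at e2
        exact sub_eq_zero.1 e2
      · exact (sub_eq_zero.1 m4).symm
    rw [hsum]
    exact add_mem (hY1 ⟨haZ, fun p hp => (hfix p hp).1⟩) (hY2 ⟨hcZ, fun p hp => (hfix p hp).2⟩)

/-- (ii) conjugates -/
theorem zs_map {ρ : Representation F G V} {N P : Subgroup G} (hN : N.Normal)
    {Y Z : Submodule F V} (h1 : Stb N ρ Z) (hY : Z ⊓ fixV ρ P ≤ Y)
    (hL : Stb (Subgroup.normalizer (P : Set G)) ρ Y) {x : G}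
    (hx : x ∈ Subgroup.normalizer (P : Set G)) :
    Stb N ρ (Z.map (ρ x)) ∧ (Z.map (ρ x)) ⊓ fixV ρ P ≤ Y := by
  constructor
  · rintro n hn _ ⟨z, hz, rfl⟩
    refine ⟨ρ (x⁻¹ * n * x) z, h1 _ ?_ z hz, ?_⟩
    · have := hN.conj_mem n hn x⁻¹
      rwa [inv_inv] at this
    · rw [← rho_mul, ← rho_mul]
      congr 2
      group
  · rintro _ ⟨⟨z, hz, rfl⟩, hf⟩
    apply hL x hx
    apply hY
    refine ⟨hz, fun p hp => ?_⟩
    have hp' : x * p * x⁻¹ ∈ P := (Subgroup.mem_normalizer_iff.1 hx p).1 hp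
    have h2 := hf _ hp'
    have h3 : ρ (x * p * x⁻¹) (ρ x z) = ρ x (ρ p z) := by
      rw [← rho_mul, ← rho_mul]
      congr 2
      group
    rw [h3] at h2
    have h4 := congrArg (ρ x⁻¹) h2
    rwa [rho_inv_self, rho_inv_self] at h4

/-- (iii) ranges -/
theorem zs_range {ρ : Representation F G V} {N P : Subgroup G} (hPN : P ≤ N)
    (hcp : ∀ W : Submodule F V, Stb N ρ W → ∃ C : Submodule F V, Stb N ρ C ∧ IsCompl W C)
    {Y : Submodule F V} {f : V →ₗ[F] V} (hf : HomOn N ρ ρ f) (hfY : ∀ v ∈ fixV ρ P, f v ∈ Y) :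
    Stb N ρ (LinearMap.range f) ∧ LinearMap.range f ⊓ fixV ρ P ≤ Y := by
  constructor
  · rintro n hn _ ⟨v, rfl⟩
    exact ⟨ρ n v, hf n hn v⟩
  · have hk : Stb N ρ (LinearMap.ker f) := by
      intro n hn v hv
      rw [LinearMap.mem_ker] at hv ⊢
      rw [hf n hn, hv, map_zero]
    obtain ⟨C, hC, hcpl⟩ := hcp _ hk
    rintro _ ⟨⟨v, rfl⟩, hfix⟩
    have hv : v ∈ LinearMap.ker f ⊔ C := by
      rw [hcpl.sup_eq_top]
      exact Submodule.mem_top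
    obtain ⟨k, hk', c, hc, rfl⟩ := Submodule.mem_sup.1 hv
    rw [LinearMap.mem_ker] at hk'
    rw [map_add, hk', zero_add] at hfix ⊢
    apply hfY
    intro p hp
    have h1 : f (ρ p c - c) = 0 := by
      rw [map_sub, hf p (hPN hp), hfix p hp, sub_self]
    have h2 : ρ p c - c ∈ LinearMap.ker f ⊓ C :=
      ⟨h1, sub_mem (hC p (hPN hp) c hc) hc⟩
    rw [hcpl.inf_eq_bot, Submodule.mem_bot] at h2
    exact sub_eq_zero.1 h2

/-- KEY -/
theorem key (hfex : FexStmt) (hsoc : SocStmt) : KeyStmt := by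
  intro ℓ _ F _ hgood G _ _ N P b hD V _ _ _ ρ hb hs Y hY1 hY2 hL
  have hN := hD.normal
  have hPN := hD.le
  have hcp : ∀ W : Submodule F V, Stb N ρ W → ∃ C : Submodule F V, Stb N ρ C ∧ IsCompl W C :=
    (hsoc F G N hN).2.2 V ρ hs
  obtain ⟨f, hf, hf0, hfY⟩ := hfex ℓ F hgood G N P b hD V ρ hb Y hY1 hY2
    fun n hn v hv => hL n hn.2 v hv
  obtain ⟨Z, ⟨hZN, hZY⟩, hmax⟩ := (wellFounded_gt (α := Submodule F V)).has_min
    {Z : Submodule F V | Stb N ρ Z ∧ Z ⊓ fixV ρ P ≤ Y}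
    ⟨⊥, fun n _ v hv => by rw [Submodule.mem_bot] at hv ⊢; rw [hv, map_zero],
      by rw [bot_inf_eq]; exact bot_le⟩
  have hle : ∀ Z' : Submodule F V, Stb N ρ Z' ∧ Z' ⊓ fixV ρ P ≤ Y → Z' ≤ Z := by
    intro Z' hZ'
    have h1 := zs_sup hPN hcp hZN hZ'.1 hZY hZ'.2
    have h2 := hmax _ h1
    have h3 : Z ⊔ Z' = Z := by
      by_contra hne
      exact h2 (lt_of_le_of_ne le_sup_left (Ne.symm hne))
    rw [← h3]
    exact le_sup_right
  refine ⟨Z, ?_, ?_, hZY⟩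
  · intro hZ0
    have h1 := hle _ (zs_range hPN hcp hf hfY)
    rw [hZ0, le_bot_iff, LinearMap.range_eq_bot] at h1
    exact hf0 h1
  · intro g _ v hv
    have hg : g ∈ N ⊔ Subgroup.normalizer (P : Set G) := by
      rw [hD.frat]
      exact Subgroup.mem_top g
    obtain ⟨n, hn, l, hl, rfl⟩ := Subgroup.mem_sup_of_normal_left.1 hg
    rw [rho_mul]
    apply hZN n hn
    exact hle _ (zs_map hN hZN hZY hL hl) ⟨v, hv, rfl⟩

end Pool.Agent.PP.D1.H2
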